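import Pool.Agent.L0h38.MON.Stm
import Pool.Agent.R673.MG.Types

/-! # MP_65b575_al, project MON, module E3 -/

set_option autoImplicit false

open Function

namespace Pool.Agent.L0h69.MON

open Pool.Agent.L0h38.MON

theorem E3 : S_E3 := by
  intro hCEN hNAB G _ hfp hinf h3
  obtain ⟨n, p, hp, hpk⟩ := hfp.out
  have hfg : Group.FG G := Group.fg_of_surjective hp
  have hZ : Subgroup.center G ≠ ⊤ := hNAB G hinf h3
  have hZn : (Subgroup.center G).Normal := inferInstance
  have hZc : IsCyclic (Subgroup.center G) := h3.2 _ hZ
  have hZfg : Group.FG (Subgroup.center G) := by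
    obtain ⟨g, hg⟩ := hZc.exists_generator
    refine Group.fg_iff.2 ⟨{g}, ?_, Set.finite_singleton g⟩
    rw [← Subgroup.zpowers_eq_closure]
    exact eq_top_iff.2 fun x _ => hg x
  have hKfp : Group.IsFinitelyPresented (G ⧸ Subgroup.center G) :=
    Group.IsFinitelyPresented.quotient _ (Subgroup.IsFinitelyNormallyGenerated.of_FG _)
  have hmk : Surjective (QuotientGroup.mk' (Subgroup.center G)) := QuotientGroup.mk'_surjective _
  refine ⟨G ⧸ Subgroup.center G, inferInstance, hKfp, ?_, ⟨?_, ?_⟩, ?_⟩
  · -- infinite
    by_contra hfin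
    rw [not_infinite_iff_finite] at hfin
    exact hZ (Pool.Agent.R673.MG.cyclic_no_fi h3.1 h3.2 _
      (Subgroup.finiteIndex_of_finite_quotient))
  · -- not cyclic
    intro hc
    apply hZ
    have hcomm := MonoidHom.isMulCommutative_of_isCyclic_of_ker_le_center
      (QuotientGroup.mk' (Subgroup.center G)) (by rw [QuotientGroup.ker_mk'])
    refine eq_top_iff.2 fun g _ => ?_
    rw [Subgroup.mem_center_iff]
    intro h
    exact hcomm.is_comm.comm h g
  · -- proper subgroups
    intro H hH
    have h1 : H.comap (QuotientGroup.mk' (Subgroup.center G)) ≠ ⊤ := by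
      intro h
      apply hH
      have := Subgroup.map_comap_eq_self_of_surjective hmk H
      rw [h, Subgroup.map_top_of_surjective _ hmk] at this
      exact this.symm
    have h2 := h3.2 _ h1
    exact isCyclic_of_surjective
      ((QuotientGroup.mk' (Subgroup.center G)).subgroupComap H)
      (MonoidHom.subgroupComap_surjective_of_surjective _ H hmk)
  · -- simple
    have hnt : Nontrivial (G ⧸ Subgroup.center G) := by
      rw [QuotientGroup.nontrivial_iff]
      exact hZ
    refine { toNontrivial := hnt, eq_bot_or_eq_top_of_normal := ?_ }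
    intro N hN
    by_cases h1 : N.comap (QuotientGroup.mk' (Subgroup.center G)) = ⊤
    · right
      have := Subgroup.map_comap_eq_self_of_surjective hmk N
      rw [h1, Subgroup.map_top_of_surjective _ hmk] at this
      exact this.symm
    · left
      have h2 := hCEN G hinf h3 _ (hN.comap _) h1
      have h3 := Subgroup.map_comap_eq_self_of_surjective hmk N
      rw [← h3, Subgroup.map_eq_bot_iff, QuotientGroup.ker_mk']
      exact h2

end Pool.Agent.L0h69.MON
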